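import Pool.Agent.Lib.MP_ccbbf6_gt.FIN3
import Pool.Agent.Lib.MP_ccbbf6_gt.FIN7

set_option autoImplicit false

namespace Pool.Agent.Results.MP_ccbbf6_gt.TheBlaschkeConjecture

open Blaschke Bundle
open scoped Manifold ContDiff Quaternion

/-- **The Blaschke conjecture**: the compact Riemannian manifolds with `Inj M = diam M` are, up to a constant factor, the
round spheres and the standard projective spaces. -/
theorem result {E : Type} [NormedAddCommGroup E] [NormedSpace ℝ E] [FiniteDimensional ℝ E]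
    {M : Type} [MetricSpace M] [CompactSpace M] [ConnectedSpace M] [ChartedSpace E M] [IsManifold 𝓘(ℝ, E) ∞ M]
    [RiemannianBundle (fun x : M => TangentSpace 𝓘(ℝ, E) x)]
    [IsContMDiffRiemannianBundle 𝓘(ℝ, E) ∞ E (fun x : M => TangentSpace 𝓘(ℝ, E) x)]
    [IsRiemannianManifold 𝓘(ℝ, E) M]
    (h : Inj M = Metric.diam (Set.univ : Set M)) :
    Homothetic M (sphereDist (Module.finrank ℝ E)) ∨
    Homothetic M (projDist ℝ (Module.finrank ℝ E)) ∨
    (∃ m : ℕ, Module.finrank ℝ E = 2 * m ∧ Homothetic M (projDist ℂ m)) ∨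
    (∃ m : ℕ, Module.finrank ℝ E = 4 * m ∧ Homothetic M (projDist ℍ m)) ∨
    (Module.finrank ℝ E = 16 ∧ Homothetic M cayleyDist) :=
  Lib.MP_ccbbf6_gt.FIN.classification_dim (E := E) (M := M)
    (fun _ _ _ 𝒜 hn hne hB => Lib.MP_ccbbf6_gt.FIN.cls 𝒜 hn hne hB) h

end Pool.Agent.Results.MP_ccbbf6_gt.TheBlaschkeConjecture
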